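import Mathlib

set_option autoImplicit false

/-!
# Connectivity of vertex subsets, separations
-/

namespace Pool.Agent.EdgePart

open Finset

variable {V : Type*} [Fintype V] [DecidableEq V]

/-- the graph induced by `R` on the vertex set `U` is `k`-connected -/
def KOn (k : ℕ) (R : SimpleGraph V) (U : Finset V) : Prop :=
  k < U.card ∧ ∀ X : Finset V, X.card < k →
    (R.induce ((U : Set V) \ (X : Set V))).Connected

omit [Fintype V] [DecidableEq V] in
/-- a nonempty set closed under adjacency outside a small set contains everything -/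
lemma KOn.spread {k : ℕ} {R : SimpleGraph V} {U : Finset V} (h : KOn k R U)
    (X W : Finset V) (hX : X.card < k) {w v : V} (hw : w ∈ W) (hwU : w ∈ U) (hwX : w ∉ X)
    (hvU : v ∈ U) (hvX : v ∉ X)
    (hcl : ∀ a ∈ W, ∀ b ∈ U, b ∉ X → R.Adj a b → b ∈ W) : v ∈ W := by
  classical
  have hc := (h.2 X hX).preconnected
    ⟨w, by simp [hwU, hwX]⟩ ⟨v, by simp [hvU, hvX]⟩
  have key : ∀ a b : ((U : Set V) \ (X : Set V) : Set V),
      (R.induce ((U : Set V) \ (X : Set V))).Reachable a b → (a : V) ∈ W → (b : V) ∈ W := by
    intro a b hab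
    obtain ⟨p⟩ := hab
    induction p with
    | nil => exact id
    | @cons a c b hac p ih =>
      intro ha
      refine ih ?_
      have hc' := c.2
      simp only [Set.mem_sdiff, mem_coe] at hc'
      exact hcl a ha c hc'.1 hc'.2 hac
  exact key _ _ hc hw

/-- a set of more than `k + 1` vertices which is not `(k + 1)`-connected has a separation of
order exactly `k` -/
lemma exists_split {k : ℕ} {R : SimpleGraph V} {U : Finset V} (hU : k + 2 ≤ U.card)
    (h : ¬ KOn (k + 1) R U) :
    ∃ S P Q : Finset V, Disjoint S P ∧ Disjoint S Q ∧ Disjoint P Q ∧ S ∪ P ∪ Q = U ∧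
      S.card = k ∧ 1 ≤ P.card ∧ P.card ≤ Q.card ∧ ∀ p ∈ P, ∀ q ∈ Q, ¬ R.Adj p q := by
  classical
  unfold KOn at h
  push Not at h
  obtain ⟨X0, hX0, hnc⟩ := h (by omega)
  -- the separator inside `U`
  set X := X0 ∩ U with hXdef
  have hXU : X ⊆ U := inter_subset_right
  have hXc : X.card ≤ k := by
    have : X.card ≤ X0.card := card_le_card inter_subset_left
    omega
  have hset : ((U : Set V) \ (X0 : Set V)) = ((U : Set V) \ (X : Set V)) := by
    ext v
    simp only [hXdef, Set.mem_sdiff, mem_coe, mem_inter, not_and]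
    tauto
  rw [hset] at hnc
  -- two vertices which are not reachable
  have hne : (U \ X).Nonempty := by
    rw [← card_pos, card_sdiff_of_subset hXU]
    omega
  have hex : ∃ P Q : Finset V, P.Nonempty ∧ Q.Nonempty ∧ Disjoint X P ∧ Disjoint X Q ∧
      Disjoint P Q ∧ X ∪ P ∪ Q = U ∧ ∀ p ∈ P, ∀ q ∈ Q, ¬ R.Adj p q := by
    have hnp : ¬ (R.induce ((U : Set V) \ (X : Set V))).Preconnected := by
      intro hp
      apply hnc
      obtain ⟨v, hv⟩ := hne
      have : Nonempty ((U : Set V) \ (X : Set V) : Set V) := ⟨⟨v, by simpa using hv⟩⟩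
      exact { preconnected := hp, nonempty := this }
    unfold SimpleGraph.Preconnected at hnp
    push Not at hnp
    obtain ⟨a, b, hab⟩ := hnp
    set P : Finset V := (U \ X).filter (fun v => ∃ hv : v ∈ ((U : Set V) \ (X : Set V) : Set V),
      (R.induce ((U : Set V) \ (X : Set V))).Reachable a ⟨v, hv⟩) with hP
    have ha := a.2
    have hb := b.2
    simp only [Set.mem_sdiff, mem_coe] at ha hb
    refine ⟨P, (U \ X) \ P, ⟨a, ?_⟩, ⟨b, ?_⟩, ?_, ?_, ?_, ?_, ?_⟩
    · rw [hP, mem_filter, mem_sdiff]
      exact ⟨ha, a.2, SimpleGraph.Reachable.refl _⟩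
    · rw [mem_sdiff, mem_sdiff]
      refine ⟨hb, ?_⟩
      rw [hP, mem_filter]
      rintro ⟨-, hv, hr⟩
      exact hab hr
    · rw [disjoint_left]
      intro v hv hvP
      rw [hP, mem_filter, mem_sdiff] at hvP
      exact hvP.1.2 hv
    · rw [disjoint_left]
      intro v hv hvP
      rw [mem_sdiff, mem_sdiff] at hvP
      exact hvP.1.2 hv
    · exact disjoint_sdiff
    · have hPs : P ⊆ U \ X := filter_subset _ _
      rw [union_assoc, union_sdiff_of_subset hPs, union_sdiff_of_subset hXU]
    · intro p hp q hq hadj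
      rw [hP, mem_filter] at hp
      obtain ⟨hp1, hp2, hp3⟩ := hp
      rw [mem_sdiff] at hq
      apply hq.2
      rw [hP, mem_filter]
      refine ⟨hq.1, by simpa using hq.1, hp3.trans ?_⟩
      apply SimpleGraph.Adj.reachable
      exact hadj
  -- enlarge the separator
  obtain ⟨P0, Q0, hP0, hQ0, d1, d2, d3, hun, hno⟩ := hex
  have main : ∀ j : ℕ, ∀ X P Q : Finset V, X.card + j = k → P.Nonempty → Q.Nonempty →
      Disjoint X P → Disjoint X Q → Disjoint P Q → X ∪ P ∪ Q = U →
      (∀ p ∈ P, ∀ q ∈ Q, ¬ R.Adj p q) →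
      ∃ S P Q : Finset V, Disjoint S P ∧ Disjoint S Q ∧ Disjoint P Q ∧ S ∪ P ∪ Q = U ∧
      S.card = k ∧ 1 ≤ P.card ∧ P.card ≤ Q.card ∧ ∀ p ∈ P, ∀ q ∈ Q, ¬ R.Adj p q := by
    intro j
    induction j with
    | zero =>
      intro X P Q hX hP hQ d1 d2 d3 hun hno
      rcases le_total P.card Q.card with hle | hle
      · exact ⟨X, P, Q, d1, d2, d3, hun, by simpa using hX, hP.card_pos, hle, hno⟩
      · refine ⟨X, Q, P, d2, d1, d3.symm, ?_, by simpa using hX, hQ.card_pos, hle, ?_⟩
        · rw [union_right_comm]; exact hun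
        · intro p hp q hq h
          exact hno q hq p hp h.symm
    | succ j ih =>
      intro X P Q hX hP hQ d1 d2 d3 hun hno
      have hcard : X.card + P.card + Q.card = U.card := by
        rw [← hun, card_union_of_disjoint (disjoint_union_left.mpr ⟨d2, d3⟩),
          card_union_of_disjoint d1]
      -- one of `P`, `Q` has at least two elements
      have h2 : 2 ≤ P.card ∨ 2 ≤ Q.card := by
        have := hP.card_pos
        have := hQ.card_pos
        omega
      rcases h2 with h2 | h2
      · obtain ⟨v, hv⟩ := hP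
        have hvX : v ∉ X := fun h => disjoint_left.mp d1 h hv
        have hvQ : v ∉ Q := fun h => disjoint_left.mp d3 hv h
        refine ih (insert v X) (P.erase v) Q ?_ ?_ hQ ?_ ?_ ?_ ?_ ?_
        · rw [card_insert_of_notMem hvX]; omega
        · rw [← card_pos, card_erase_of_mem hv]; omega
        · rw [disjoint_insert_left]
          exact ⟨notMem_erase v P, d1.mono_right (erase_subset v P)⟩
        · rw [disjoint_insert_left]
          exact ⟨hvQ, d2⟩
        · exact d3.mono_left (erase_subset v P)
        · rw [← hun]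
          ext w
          simp only [mem_union, mem_insert, mem_erase]
          by_cases hw : w = v
          · subst hw; tauto
          · tauto
        · intro p hp q hq
          exact hno p (mem_of_mem_erase hp) q hq
      · obtain ⟨v, hv⟩ := hQ
        have hvX : v ∉ X := fun h => disjoint_left.mp d2 h hv
        have hvP : v ∉ P := fun h => disjoint_left.mp d3 h hv
        refine ih (insert v X) P (Q.erase v) ?_ hP ?_ ?_ ?_ ?_ ?_ ?_
        · rw [card_insert_of_notMem hvX]; omega
        · rw [← card_pos, card_erase_of_mem hv]; omega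
        · rw [disjoint_insert_left]
          exact ⟨hvP, d1⟩
        · rw [disjoint_insert_left]
          exact ⟨notMem_erase v Q, d2.mono_right (erase_subset v Q)⟩
        · exact d3.mono_right (erase_subset v Q)
        · rw [← hun]
          ext w
          simp only [mem_union, mem_insert, mem_erase]
          by_cases hw : w = v
          · subst hw; tauto
          · tauto
        · intro p hp q hq
          exact hno p hp q (mem_of_mem_erase hq)
  exact main (k - X.card) X P0 Q0 (by omega) hP0 hQ0 d1 d2 d3 hun hno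

end Pool.Agent.EdgePart
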