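import Mathlib
import Pool.Agent.EdgePart.Basic

set_option autoImplicit false

/-!
# Critical edges of an `s`-connected graph
-/

namespace Pool.Agent.EdgePart

open Finset

variable {V : Type*} [Fintype V] [DecidableEq V]

/-- `F` is the side of `x` in a separation of `A - xy` of order less than `s` -/
structure IsSep (A : SimpleGraph V) (s : ℕ) (x y : V) (F T : Finset V) : Prop where
  disj : Disjoint F T
  hx : x ∈ F
  hyF : y ∉ F
  hyT : y ∉ T
  card : T.card < s
  edge : ∀ u ∈ F, ∀ w, w ∉ F → w ∉ T → A.Adj u w → u = x ∧ w = y

/-- the other side -/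
lemma IsSep.symm {A : SimpleGraph V} {s : ℕ} {x y : V} {F T : Finset V}
    (h : IsSep A s x y F T) : IsSep A s y x (univ \ (F ∪ T)) T where
  disj := by
    rw [disjoint_left]
    intro v hv hT
    rw [mem_sdiff, mem_union] at hv
    exact hv.2 (Or.inr hT)
  hx := by
    rw [mem_sdiff, mem_union]
    exact ⟨mem_univ _, fun h' => h'.elim h.hyF h.hyT⟩
  hyF := by
    rw [mem_sdiff, mem_union]
    exact fun h' => h'.2 (Or.inl h.hx)
  hyT := disjoint_left.mp h.disj h.hx
  card := h.card
  edge := by
    intro u hu w hw hwT hadj
    rw [mem_sdiff, mem_union] at hu hw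
    have hwF : w ∈ F := by
      by_contra hc
      exact hw ⟨mem_univ _, fun h' => h'.elim hc hwT⟩
    have := h.edge w hwF u (fun h' => hu.2 (Or.inl h')) (fun h' => hu.2 (Or.inr h')) hadj.symm
    exact ⟨this.2, this.1⟩

/-- the crossing inequality -/
lemma cross {A : SimpleGraph V} {s : ℕ} (hA : KOn s A univ) {x y z : V} (hyz : y ≠ z)
    (hdeg : s < (A.neighborSet x).ncard)
    {F F' T T' : Finset V} (hF : IsSep A s y x F T) (hF' : IsSep A s x z F' T') :
    F.card < F'.card := by
  classical
  -- the complementary sides
  set G := univ \ (F ∪ T) with hG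
  set G' := univ \ (F' ∪ T') with hG'
  have hs := hF.symm
  have hs' := hF'.symm
  rw [← hG] at hs
  rw [← hG'] at hs'
  have hxG : x ∈ G := hs.hx
  have hxF' : x ∈ F' := hF'.hx
  have hyF : y ∈ F := hF.hx
  have hzG' : z ∈ G' := hs'.hx
  have memG : ∀ v, v ∈ G ↔ v ∉ F ∧ v ∉ T := by
    intro v; rw [hG, mem_sdiff, mem_union]; simp
  have memG' : ∀ v, v ∈ G' ↔ v ∉ F' ∧ v ∉ T' := by
    intro v; rw [hG', mem_sdiff, mem_union]; simp
  have dFT := disjoint_left.mp hF.disj
  have dFT' := disjoint_left.mp hF'.disj
  -- edges between `F` and `G`, and between `F'` and `G'`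
  have e1 : ∀ u w, u ∈ F → w ∈ G → A.Adj u w → u = y ∧ w = x := by
    intro u w hu hw hadj
    rw [memG] at hw
    exact hF.edge u hu w hw.1 hw.2 hadj
  have e2 : ∀ u w, u ∈ F' → w ∈ G' → A.Adj u w → u = x ∧ w = z := by
    intro u w hu hw hadj
    rw [memG'] at hw
    exact hF'.edge u hu w hw.1 hw.2 hadj
  -- the boundary of the corner `G ∩ F'`
  set T1 := (G ∩ T') ∪ (T ∩ T') ∪ (T ∩ F') with hT1
  set T2 := (F ∩ T') ∪ (T ∩ T') ∪ (T ∩ G') with hT2
  have hyG : y ∉ G := by rw [memG]; tauto
  have hyT1 : y ∉ T1 := by
    rw [hT1]
    simp only [mem_union, mem_inter]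
    have := dFT hyF
    tauto
  have hT1card : s ≤ T1.card + 1 := by
    by_cases hX : ∃ w, w ∈ G ∧ w ∈ F' ∧ w ≠ x
    · obtain ⟨w, hwG, hwF', hwx⟩ := hX
      by_contra hlt
      push Not at hlt
      have hc : (insert x T1).card < s := by
        have := card_insert_le x T1
        omega
      have hwT1 : w ∉ insert x T1 := by
        rw [mem_insert, hT1]
        simp only [mem_union, mem_inter]
        have h1 := dFT' hwF'
        have h2 := (memG w).mp hwG
        tauto
      have hyT1' : y ∉ insert x T1 := by
        rw [mem_insert]
        rintro (h | h)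
        · rw [h] at hyG; exact hyG hxG
        · exact hyT1 h
      have := hA.spread (insert x T1) ((G ∩ F').erase x) hc (w := w) (v := y)
        (mem_erase.mpr ⟨hwx, mem_inter.mpr ⟨hwG, hwF'⟩⟩) (mem_univ _) hwT1 (mem_univ _) hyT1' ?_
      · have := (mem_inter.mp (mem_of_mem_erase this)).1
        exact hyG this
      · intro a ha b _ hb hadj
        rw [mem_erase, mem_inter] at ha
        rw [mem_insert] at hb
        rw [mem_erase, mem_inter]
        refine ⟨fun h => hb (Or.inl h), ?_⟩
        have hb1 : b ∉ F := by
          intro hbF
          have := e1 b a hbF ha.2.1 hadj.symm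
          exact ha.1 this.2
        have hb2 : b ∉ G' := by
          intro hbG
          have := e2 a b ha.2.2 hbG hadj
          exact ha.1 this.1
        rw [memG'] at hb2
        rw [memG]
        have hb3 : b ∉ T1 := fun h => hb (Or.inr h)
        rw [hT1] at hb3
        simp only [mem_union, mem_inter, memG] at hb3
        tauto
    · push Not at hX
      -- the neighbours of `x`
      have hsub : A.neighborSet x ⊆ ((insert y (insert z T1) : Finset V) : Set V) := by
        intro b hb
        rw [SimpleGraph.mem_neighborSet] at hb
        simp only [mem_coe, mem_insert]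
        by_contra hc
        push Not at hc
        obtain ⟨hc1, hc2, hc3⟩ := hc
        have hb1 : b ∉ F := by
          intro hbF
          exact hc1 (e1 b x hbF hxG hb.symm).1
        have hb2 : b ∉ G' := by
          intro hbG
          exact hc2 (e2 x b hxF' hbG hb).2
        rw [memG'] at hb2
        rw [hT1] at hc3
        simp only [mem_union, mem_inter, memG] at hc3
        have hbx : b ≠ x := hb.ne'
        have := hX b
        rw [memG] at this
        tauto
      have h1 := Set.ncard_le_ncard hsub (Finset.finite_toSet _)
      rw [Set.ncard_coe_finset] at h1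
      have h2 := card_insert_le y (insert z T1)
      have h3 := card_insert_le z T1
      omega
  -- sizes
  have hsum : T1.card + T2.card ≤ T.card + T'.card := by
    have hGF : Disjoint (G ∩ T') (F ∩ T') := by
      rw [disjoint_left]
      intro v hv hv'
      rw [mem_inter, memG] at hv
      rw [mem_inter] at hv'
      tauto
    have h1 : T1.card ≤ (G ∩ T').card + (T ∩ T').card + (T ∩ F').card :=
      (card_union_le _ _).trans (Nat.add_le_add_right (card_union_le _ _) _)
    have h2 : T2.card ≤ (F ∩ T').card + (T ∩ T').card + (T ∩ G').card :=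
      (card_union_le _ _).trans (Nat.add_le_add_right (card_union_le _ _) _)
    have h3 : (T ∩ T').card + (T ∩ F').card + (T ∩ G').card ≤ T.card := by
      rw [← card_union_of_disjoint, ← card_union_of_disjoint]
      · apply card_le_card
        intro v hv
        simp only [mem_union, mem_inter] at hv
        tauto
      · rw [disjoint_left]
        intro v hv hv'
        simp only [mem_union, mem_inter, memG'] at hv hv'
        tauto
      · rw [disjoint_left]
        intro v hv hv'
        simp only [mem_inter] at hv hv'
        exact dFT' hv'.2 hv.2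
    have h4 : (T ∩ T').card + (G ∩ T').card + (F ∩ T').card ≤ T'.card := by
      rw [← card_union_of_disjoint, ← card_union_of_disjoint]
      · apply card_le_card
        intro v hv
        simp only [mem_union, mem_inter] at hv
        tauto
      · rw [disjoint_left]
        intro v hv hv'
        simp only [mem_union, mem_inter, memG] at hv hv'
        have := @dFT v
        tauto
      · rw [disjoint_left]
        intro v hv hv'
        simp only [mem_inter, memG] at hv hv'
        tauto
    omega
  have hcT := hF.card
  have hcT' := hF'.card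
  have hT2card : T2.card < s := by omega
  -- the opposite corner is empty
  have hempty : ∀ w, w ∈ F → w ∉ G' := by
    intro w hwF hwG'
    have hxT2 : x ∉ T2 := by
      rw [hT2]
      simp only [mem_union, mem_inter]
      have h1 := (memG x).mp hxG
      have h2 := dFT' hxF'
      tauto
    have hwT2 : w ∉ T2 := by
      rw [hT2]
      simp only [mem_union, mem_inter]
      have h1 := dFT hwF
      have h2 := (memG' w).mp hwG'
      tauto
    have := hA.spread T2 (F ∩ G') hT2card (w := w) (v := x) (mem_inter.mpr ⟨hwF, hwG'⟩)
      (mem_univ _) hwT2 (mem_univ _) hxT2 ?_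
    · have h1 := (memG x).mp hxG
      exact h1.1 (mem_inter.mp this).1
    · intro a ha b _ hb hadj
      rw [mem_inter] at ha
      rw [mem_inter]
      have hb1 : b ∉ G := by
        intro hbG
        have h1 := e1 a b ha.1 hbG hadj
        -- `a = y`, `b = x`
        have h2 := e2 b a (h1.2 ▸ hxF') ha.2 hadj.symm
        exact hyz (h1.1.symm.trans h2.2)
      have hb2 : b ∉ F' := by
        intro hbF'
        have h2 := e2 b a hbF' ha.2 hadj.symm
        have h1 := e1 a b ha.1 (h2.1 ▸ hxG) hadj
        exact hyz (h1.1.symm.trans h2.2)
      rw [memG] at hb1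
      rw [memG']
      rw [hT2] at hb
      simp only [mem_union, mem_inter, memG'] at hb
      tauto
  -- compare `F` and `F'`
  have hF1 : F.card ≤ (F ∩ F').card + (F ∩ T').card := by
    rw [← card_union_of_disjoint]
    · apply card_le_card
      intro v hv
      have := hempty v hv
      rw [memG'] at this
      simp only [mem_union, mem_inter]
      tauto
    · rw [disjoint_left]
      intro v hv hv'
      simp only [mem_inter] at hv hv'
      exact dFT' hv.2 hv'.2
  have hF2 : (F ∩ F').card + (T ∩ F').card + (G ∩ F').card ≤ F'.card := by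
    rw [← card_union_of_disjoint, ← card_union_of_disjoint]
    · apply card_le_card
      intro v hv
      simp only [mem_union, mem_inter] at hv
      tauto
    · rw [disjoint_left]
      intro v hv hv'
      simp only [mem_union, mem_inter, memG] at hv hv'
      tauto
    · rw [disjoint_left]
      intro v hv hv'
      simp only [mem_inter] at hv hv'
      exact dFT hv.1 hv'.1
  have hF3 : 1 ≤ (G ∩ F').card := by
    rw [Nat.one_le_iff_ne_zero, ← Nat.pos_iff_ne_zero, card_pos]
    exact ⟨x, mem_inter.mpr ⟨hxG, hxF'⟩⟩
  have hF4 : T1.card ≤ (G ∩ T').card + (T ∩ T').card + (T ∩ F').card :=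
    (card_union_le _ _).trans (Nat.add_le_add_right (card_union_le _ _) _)
  have hF5 : (G ∩ T').card + (T ∩ T').card + (F ∩ T').card ≤ T'.card := by
    rw [← card_union_of_disjoint, ← card_union_of_disjoint]
    · apply card_le_card
      intro v hv
      simp only [mem_union, mem_inter] at hv
      tauto
    · rw [disjoint_left]
      intro v hv hv'
      simp only [mem_union, mem_inter, memG] at hv hv'
      have := @dFT v
      tauto
    · rw [disjoint_left]
      intro v hv hv'
      simp only [mem_inter, memG] at hv hv'
      tauto
  omega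

end Pool.Agent.EdgePart
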