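import Mathlib
import Pool.Agent.EdgePart.Critical

set_option autoImplicit false

/-!
# Few edges make a graph of minimum degree `s - 1` an `s`-connected graph
-/

namespace Pool.Agent.EdgePart

open Finset

variable {V : Type*} [Fintype V] [DecidableEq V]

/-- a critical edge has a separation -/
lemma exists_sep {A : SimpleGraph V} {s : ℕ} (hA : KOn s A univ) {x y : V} (hxy : A.Adj x y)
    (hcr : ¬ KOn s (A.deleteEdges {s(x, y)}) univ) :
    ∃ F T : Finset V, IsSep A s x y F T := by
  classical
  set A' := A.deleteEdges {s(x, y)} with hA'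
  have adj' : ∀ a b, A'.Adj a b ↔ A.Adj a b ∧ s(a, b) ≠ s(x, y) := by
    intro a b
    rw [hA', SimpleGraph.deleteEdges_adj]
    simp
  unfold KOn at hcr
  push Not at hcr
  obtain ⟨X, hX, hnc⟩ := hcr hA.1
  have hne : ∃ v, v ∉ X := by
    by_contra h
    push Not at h
    have h1 : X = univ := by ext v; simp [h v]
    rw [h1] at hX
    have := hA.1
    omega
  -- a set reachable from `x`
  set U : Set V := ((univ : Finset V) : Set V) \ (X : Set V) with hU
  have memU : ∀ v, v ∈ U ↔ v ∉ X := by intro v; simp [hU]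
  have hnp : ¬ (A'.induce U).Preconnected := by
    intro hp
    apply hnc
    obtain ⟨v, hv⟩ := hne
    have : Nonempty U := ⟨⟨v, (memU v).mpr hv⟩⟩
    exact { preconnected := hp, nonempty := this }
  -- a closed set in `A'` containing both ends or avoiding the edge is everything
  have key : ∀ c : V, c ∉ X → (¬ (x ∉ X ∧ y ∉ X) ∨
      (∃ hx : x ∈ U, ∃ hy : y ∈ U, (A'.induce U).Reachable ⟨x, hx⟩ ⟨y, hy⟩)) → 
      ∀ v (hc : c ∈ U) (hv : v ∈ U), (A'.induce U).Reachable ⟨c, hc⟩ ⟨v, hv⟩ := by
    intro c hcX hcase v hc hv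
    set W : Finset V := univ.filter (fun v => ∃ hv : v ∈ U, (A'.induce U).Reachable ⟨c, hc⟩ ⟨v, hv⟩)
      with hW
    have hcW : c ∈ W := by
      rw [hW, mem_filter]
      exact ⟨mem_univ _, hc, SimpleGraph.Reachable.refl _⟩
    have := hA.spread X W hX hcW (mem_univ _) hcX (mem_univ v) ((memU v).mp hv) ?_
    · rw [hW, mem_filter] at this
      exact this.2.2
    · intro a ha b _ hb hadj
      rw [hW, mem_filter] at ha ⊢
      obtain ⟨-, haU, hr⟩ := ha
      have hbU : b ∈ U := (memU b).mpr hb
      refine ⟨mem_univ _, hbU, hr.trans ?_⟩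
      by_cases he : s(a, b) = s(x, y)
      · rcases hcase with h | ⟨hx, hy, h⟩
        · exfalso
          apply h
          have haX := (memU a).mp haU
          rcases Sym2.eq_iff.mp he with ⟨rfl, rfl⟩ | ⟨rfl, rfl⟩
          · exact ⟨haX, hb⟩
          · exact ⟨hb, haX⟩
        · rcases Sym2.eq_iff.mp he with ⟨rfl, rfl⟩ | ⟨rfl, rfl⟩
          · exact h
          · exact h.symm
      · apply SimpleGraph.Adj.reachable
        exact (adj' a b).mpr ⟨hadj, he⟩
  have hxyX : x ∉ X ∧ y ∉ X := by
    by_contra h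
    apply hnp
    intro a b
    exact key a ((memU a).mp a.2) (Or.inl h) b a.2 b.2
  have hxU : x ∈ U := (memU x).mpr hxyX.1
  have hyU : y ∈ U := (memU y).mpr hxyX.2
  have hnr : ¬ (A'.induce U).Reachable ⟨x, hxU⟩ ⟨y, hyU⟩ := by
    intro h
    apply hnp
    intro a b
    exact key a ((memU a).mp a.2) (Or.inr ⟨hxU, hyU, h⟩) b a.2 b.2
  set F : Finset V := univ.filter (fun v => ∃ hv : v ∈ U, (A'.induce U).Reachable ⟨x, hxU⟩ ⟨v, hv⟩)
    with hF
  refine ⟨F, X, ?_, ?_, ?_, hxyX.2, hX, ?_⟩
  · rw [disjoint_left]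
    intro v hv hvX
    rw [hF, mem_filter] at hv
    exact (memU v).mp hv.2.1 hvX
  · rw [hF, mem_filter]
    exact ⟨mem_univ _, hxU, SimpleGraph.Reachable.refl _⟩
  · rw [hF, mem_filter]
    rintro ⟨-, h1, h2⟩
    exact hnr h2
  · intro u hu w hwF hwX hadj
    have hu' := hu
    rw [hF, mem_filter] at hu
    obtain ⟨-, huU, hr⟩ := hu
    have hwU : w ∈ U := (memU w).mpr hwX
    have he : s(u, w) = s(x, y) := by
      by_contra he
      apply hwF
      rw [hF, mem_filter]
      refine ⟨mem_univ _, hwU, hr.trans ?_⟩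
      apply SimpleGraph.Adj.reachable
      exact (adj' u w).mpr ⟨hadj, he⟩
    rcases Sym2.eq_iff.mp he with h | ⟨rfl, rfl⟩
    · exact h
    · exact absurd hr hnr

/-- the augmentation theorem -/
theorem augment {G M : SimpleGraph V} {s : ℕ} (hMG : M ≤ G) (hG : KOn s G univ)
    (hM : ∀ v, s ≤ (M.neighborSet v).ncard + 1) :
    ∃ A : SimpleGraph V, M ≤ A ∧ A ≤ G ∧ KOn s A univ ∧
      (A.edgeSet \ M.edgeSet).ncard ≤ Fintype.card V := by
  classical
  -- a minimal graph
  have hex : ∃ n, ∃ A : SimpleGraph V, M ≤ A ∧ A ≤ G ∧ KOn s A univ ∧ A.edgeSet.ncard = n :=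
    ⟨_, G, hMG, le_rfl, hG, rfl⟩
  obtain ⟨A, hMA, hAG, hA, hcard⟩ := Nat.find_spec hex
  have hmin : ∀ A' : SimpleGraph V, M ≤ A' → A' ≤ G → KOn s A' univ →
      A.edgeSet.ncard ≤ A'.edgeSet.ncard := by
    intro A' h1 h2 h3
    rw [hcard]
    exact Nat.find_min' hex ⟨A', h1, h2, h3, rfl⟩
  have hcrit : ∀ e ∈ A.edgeSet \ M.edgeSet, ¬ KOn s (A.deleteEdges {e}) univ := by
    intro e he h
    have h1 : M ≤ A.deleteEdges {e} := by
      intro a b hab
      rw [SimpleGraph.deleteEdges_adj]
      refine ⟨hMA hab, ?_⟩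
      intro hc
      rw [Set.mem_singleton_iff] at hc
      apply he.2
      rw [← hc]
      exact hab
    have h2 := hmin _ h1 ((SimpleGraph.deleteEdges_le _).trans hAG) h
    have h3 : (A.deleteEdges {e}).edgeSet.ncard < A.edgeSet.ncard := by
      apply Set.ncard_lt_ncard _ (Set.toFinite _)
      rw [SimpleGraph.edgeSet_deleteEdges]
      refine ⟨Set.sdiff_subset, ?_⟩
      intro hc
      exact (hc he.1).2 rfl
    omega
  refine ⟨A, hMA, hAG, hA, ?_⟩
  -- data
  have hdata : ∀ e : (A.edgeSet \ M.edgeSet : Set (Sym2 V)), ∃ x y : V, ∃ F T : Finset V,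
      (e : Sym2 V) = s(x, y) ∧ IsSep A s x y F T ∧ F.card ≤ (univ \ (F ∪ T)).card := by
    rintro ⟨e, he⟩
    induction e using Sym2.ind with
    | _ x y =>
      obtain ⟨F, T, hFT⟩ := exists_sep hA he.1 (hcrit _ he)
      rcases le_total F.card (univ \ (F ∪ T)).card with h | h
      · exact ⟨x, y, F, T, rfl, hFT, h⟩
      · refine ⟨y, x, univ \ (F ∪ T), T, Sym2.eq_swap, hFT.symm, ?_⟩
        have e1 : univ \ (univ \ (F ∪ T) ∪ T) = F := by
          ext v
          have hd := disjoint_left.mp hFT.disj
          have := @hd v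
          simp only [mem_sdiff, mem_univ, true_and, mem_union]
          tauto
        rw [e1]
        exact h
  choose x y F T he hs hc using hdata
  have hinj : Function.Injective x := by
    intro e e' hxx
    by_contra hne
    have hyy : y e ≠ y e' := by
      intro h
      apply hne
      apply Subtype.ext
      rw [he e, he e', hxx, h]
    have hdeg : s < (A.neighborSet (x e)).ncard := by
      have m1 : y e ∉ M.neighborSet (x e) := by
        intro h
        apply e.2.2
        rw [he e]
        exact h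
      have m2 : y e' ∉ M.neighborSet (x e) := by
        intro h
        apply e'.2.2
        rw [he e', ← hxx]
        exact h
      have a1 : y e ∈ A.neighborSet (x e) := by
        have := e.2.1
        rw [he e] at this
        exact this
      have a2 : y e' ∈ A.neighborSet (x e) := by
        have := e'.2.1
        rw [he e', ← hxx] at this
        exact this
      have hsub : insert (y e) (insert (y e') (M.neighborSet (x e))) ⊆ A.neighborSet (x e) := by
        intro v hv
        rcases hv with rfl | rfl | hv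
        · exact a1
        · exact a2
        · exact hMA hv
      have h1 := Set.ncard_le_ncard hsub (Set.toFinite _)
      rw [Set.ncard_insert_of_notMem, Set.ncard_insert_of_notMem m2] at h1
      · have := hM (x e)
        omega
      · rintro (h | h)
        · exact hyy h
        · exact m1 h
    have c1 := cross hA hyy hdeg (hs e).symm (by rw [hxx]; exact hs e')
    have c2 := cross hA hyy.symm (by rw [← hxx]; exact hdeg) (hs e').symm
      (by rw [← hxx]; exact hs e)
    have h1 := hc e
    have h2 := hc e'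
    omega
  have : (A.edgeSet \ M.edgeSet).ncard = Nat.card (A.edgeSet \ M.edgeSet : Set (Sym2 V)) := rfl
  rw [this, ← Nat.card_eq_fintype_card]
  exact Nat.card_le_card_of_injective x hinj

end Pool.Agent.EdgePart
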