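import Mathlib
import Pool.Agent.EdgePart.Basic

set_option autoImplicit false

/-!
# A density condition for `(k + 1)`-connected subgraphs
-/

namespace Pool.Agent.EdgePart

open Finset

variable {V : Type*} [Fintype V] [DecidableEq V]

open Classical in
/-- the number of ordered adjacent pairs inside `U` -/
noncomputable def D (R : SimpleGraph V) (U : Finset V) : ℕ :=
  ((U ×ˢ U).filter (fun p => R.Adj p.1 p.2)).card

lemma D_le (R : SimpleGraph V) (U : Finset V) : D R U ≤ U.card * (U.card - 1) := by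
  classical
  have h : D R U ≤ U.offDiag.card := by
    apply card_le_card
    intro p hp
    rw [mem_filter, mem_product] at hp
    rw [mem_offDiag]
    exact ⟨hp.1.1, hp.1.2, hp.2.ne⟩
  refine h.trans ?_
  rw [offDiag_card, Nat.mul_sub, mul_one]

lemma D_split1 (R : SimpleGraph V) (S P Q : Finset V) 
    (hno : ∀ p ∈ P, ∀ q ∈ Q, ¬ R.Adj p q) :
    D R (S ∪ P ∪ Q) ≤ D R (S ∪ Q) + P.card * (P.card - 1) + 2 * (P.card * S.card) := by
  classical
  have h : ((S ∪ P ∪ Q) ×ˢ (S ∪ P ∪ Q)).filter (fun p => R.Adj p.1 p.2)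
      ⊆ (((S ∪ Q) ×ˢ (S ∪ Q)).filter (fun p => R.Adj p.1 p.2)) ∪
        ((P ×ˢ P).filter (fun p => R.Adj p.1 p.2)) ∪ ((P ×ˢ S) ∪ (S ×ˢ P)) := by
    rintro ⟨a, b⟩ h
    simp only [mem_filter, mem_product, mem_union] at h ⊢
    obtain ⟨⟨ha, hb⟩, hadj⟩ := h
    have h1 := hno a
    have h2 := hno b
    have h3 := hadj.symm
    tauto
  have h1 := card_le_card h
  have h2 := D_le R P
  unfold D at h2 ⊢
  refine h1.trans ((card_union_le _ _).trans ?_)
  have h3 := card_union_le (((S ∪ Q) ×ˢ (S ∪ Q)).filter (fun p => R.Adj p.1 p.2))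
    ((P ×ˢ P).filter (fun p => R.Adj p.1 p.2))
  have h4 := card_union_le (P ×ˢ S) (S ×ˢ P)
  rw [card_product, card_product, mul_comm S.card P.card] at h4
  omega

lemma D_split2 (R : SimpleGraph V) (S P Q : Finset V) 
    (hno : ∀ p ∈ P, ∀ q ∈ Q, ¬ R.Adj p q) :
    D R (S ∪ P ∪ Q) ≤ D R (S ∪ P) + D R (S ∪ Q) := by
  classical
  have h : ((S ∪ P ∪ Q) ×ˢ (S ∪ P ∪ Q)).filter (fun p => R.Adj p.1 p.2)
      ⊆ (((S ∪ P) ×ˢ (S ∪ P)).filter (fun p => R.Adj p.1 p.2)) ∪
        (((S ∪ Q) ×ˢ (S ∪ Q)).filter (fun p => R.Adj p.1 p.2)) := by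
    rintro ⟨a, b⟩ h
    simp only [mem_filter, mem_product, mem_union] at h ⊢
    obtain ⟨⟨ha, hb⟩, hadj⟩ := h
    have h1 := hno a
    have h2 := hno b
    have h3 := hadj.symm
    tauto
  exact (card_le_card h).trans (card_union_le _ _)

/-- small sets -/
lemma D_small {k : ℕ} (R : SimpleGraph V) (hno : ∀ U : Finset V, ¬ KOn (k + 1) R U) :
    ∀ m : ℕ, 1 ≤ m → ∀ U : Finset V, U.card = k + m →
      3 * D R U ≤ 3 * (k * (k - 1)) + 6 * (k * m) + m * (m - 1) := by
  intro m
  induction m using Nat.strong_induction_on with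
  | _ m ih =>
    intro hm U hU
    rcases Nat.lt_or_ge m 2 with h1 | h2
    · obtain rfl : m = 1 := by omega
      have := D_le R U
      rw [hU] at this
      have e : (k + 1) * (k + 1 - 1) = k * (k - 1) + 2 * k := by
        rcases Nat.eq_zero_or_pos k with rfl | hk
        · simp
        · obtain ⟨j, rfl⟩ : ∃ j, k = j + 1 := ⟨k - 1, by omega⟩
          simp only [Nat.add_sub_cancel]
          ring
      rw [e] at this
      omega
    · obtain ⟨S, P, Q, d1, d2, d3, hun, hS, hP, hPQ, hn⟩ := exists_split (by omega) (hno U)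
      have hcard : S.card + P.card + Q.card = U.card := by
        rw [← hun, card_union_of_disjoint (disjoint_union_left.mpr ⟨d2, d3⟩),
          card_union_of_disjoint d1]
      have hQ : (S ∪ Q).card = k + Q.card := by rw [card_union_of_disjoint d2, hS]
      have hb : Q.card < m := by omega
      have h3 := ih Q.card hb (by omega) (S ∪ Q) hQ
      have h4 := D_split1 R S P Q hn
      rw [hun, hS] at h4
      have hm' : m = P.card + Q.card := by omega
      obtain ⟨a, ha⟩ : ∃ a, P.card = a + 1 := ⟨P.card - 1, by omega⟩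
      obtain ⟨b, hb'⟩ : ∃ b, Q.card = b + 1 := ⟨Q.card - 1, by omega⟩
      rw [ha, hb'] at hm'
      rw [hb'] at h3
      rw [ha] at h4
      have hab : a ≤ b := by omega
      subst hm'
      simp only [Nat.add_sub_cancel] at h3 h4
      have e1 : a + 1 + (b + 1) - 1 = a + b + 1 := by omega
      rw [e1]
      generalize k * (k - 1) = kk at *
      nlinarith [Nat.mul_le_mul_left (a + 1) hab]

/-- large sets -/
lemma D_large {k : ℕ} (hk : 1 ≤ k) (R : SimpleGraph V)
    (hno : ∀ U : Finset V, ¬ KOn (k + 1) R U) :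
    ∀ m : ℕ, 5 * k ≤ 4 * m → ∀ U : Finset V, U.card = k + m →
      4 * D R U ≤ 13 * (k * m) := by
  intro m
  induction m using Nat.strong_induction_on with
  | _ m ih =>
    intro hm U hU
    rcases Nat.le_total (2 * m) (5 * k) with h1 | h2
    · have h3 := D_small R hno m (by omega) U hU
      obtain ⟨j, rfl⟩ : ∃ j, k = j + 1 := ⟨k - 1, by omega⟩
      obtain ⟨i, rfl⟩ : ∃ i, m = i + 1 := ⟨m - 1, by omega⟩
      simp only [Nat.add_sub_cancel] at h3
      zify at h3 h1 hm ⊢
      nlinarith [mul_nonneg (sub_nonneg.mpr hm) (sub_nonneg.mpr h1)]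
    · obtain ⟨S, P, Q, d1, d2, d3, hun, hS, hP, hPQ, hn⟩ := exists_split (by omega) (hno U)
      have hcard : S.card + P.card + Q.card = U.card := by
        rw [← hun, card_union_of_disjoint (disjoint_union_left.mpr ⟨d2, d3⟩),
          card_union_of_disjoint d1]
      have hQ : (S ∪ Q).card = k + Q.card := by rw [card_union_of_disjoint d2, hS]
      have hP' : (S ∪ P).card = k + P.card := by rw [card_union_of_disjoint d1, hS]
      have hb : Q.card < m := by omega
      have ha : P.card < m := by omega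
      have h3 := ih Q.card hb (by omega) (S ∪ Q) hQ
      have hm' : m = P.card + Q.card := by omega
      rcases Nat.le_total (5 * k) (4 * P.card) with h5 | h5
      · have h6 := ih P.card ha h5 (S ∪ P) hP'
        have h4 := D_split2 R S P Q hn
        rw [hun] at h4
        rw [hm', mul_add, mul_add]
        omega
      · have h4 := D_split1 R S P Q hn
        rw [hun, hS] at h4
        rw [hm']
        obtain ⟨a, ha⟩ : ∃ a, P.card = a + 1 := ⟨P.card - 1, by omega⟩
        rw [ha] at h4 h5 ⊢
        simp only [Nat.add_sub_cancel] at h4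
        nlinarith [Nat.mul_le_mul_left (a + 1) h5]

/-- the density theorem -/
theorem exists_KOn {k : ℕ} (hk : 1 ≤ k) (R : SimpleGraph V)
    (hn : 9 * k ≤ 4 * Fintype.card V)
    (h : 13 * (k * (Fintype.card V - k)) < 4 * D R univ) :
    ∃ U : Finset V, KOn (k + 1) R U := by
  by_contra hno
  push Not at hno
  have := D_large hk R hno (Fintype.card V - k) (by omega) univ (by
    rw [card_univ]; omega)
  omega

end Pool.Agent.EdgePart
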