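import Mathlib

set_option autoImplicit false

/-!
# Rounding a fractional degree-constrained subgraph (after Beck and Fiala)
-/

namespace Pool.Agent.EdgePart

open Finset

variable {ι V : Type*} [Fintype ι] [Fintype V] [DecidableEq ι] [DecidableEq V]

open Classical in
/-- the rounding lemma -/
theorem rounding (I : ι → V → Prop) (hI : ∀ i, (univ.filter (fun v => I i v)).card ≤ 2)
    (r : V → ℕ) :
    ∀ n : ℕ, ∀ x : ι → ℝ, (∀ i, 0 ≤ x i ∧ x i ≤ 1) →
      (univ.filter (fun i => x i ≠ 0 ∧ x i ≠ 1)).card = n →
      (∀ v, (r v : ℝ) + 1 ≤ ∑ i ∈ univ.filter (fun i => I i v), x i ∨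
        r v ≤ (univ.filter (fun i => I i v ∧ x i = 1)).card) →
      ∃ S : Finset ι, (S.card : ℝ) ≤ ∑ i, x i ∧
        ∀ v, r v ≤ (S.filter (fun i => I i v)).card := by
  intro n
  induction n using Nat.strong_induction_on with
  | _ n ih =>
    intro x hx hn hv
    set Fr := univ.filter (fun i => x i ≠ 0 ∧ x i ≠ 1) with hFr
    have memFr : ∀ i, i ∈ Fr ↔ (x i ≠ 0 ∧ x i ≠ 1) := by intro i; simp [hFr]
    rcases Fr.eq_empty_or_nonempty with hemp | hne
    · -- everything is integral
      have h01 : ∀ i, x i = 0 ∨ x i = 1 := by
        intro i
        have : i ∉ Fr := by rw [hemp]; simp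
        rw [memFr] at this
        tauto
      have hxi : ∀ i, x i = if x i = 1 then 1 else 0 := by
        intro i
        rcases h01 i with h | h
        · rw [if_neg (by rw [h]; norm_num), h]
        · rw [if_pos h, h]
      refine ⟨univ.filter (fun i => x i = 1), ?_, ?_⟩
      · rw [Finset.sum_congr rfl (fun i _ => hxi i)]
        rw [Finset.sum_ite]
        simp
      · intro v
        have hset : (univ.filter (fun i => x i = 1)).filter (fun i => I i v)
            = univ.filter (fun i => I i v ∧ x i = 1) := by
          ext i; simp; tauto
        rw [hset]
        rcases hv v with h | h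
        · rw [Finset.sum_congr rfl (fun i _ => hxi i), Finset.sum_ite] at h
          simp only [sum_const, nsmul_eq_mul, mul_one, mul_zero, add_zero, filter_filter] at h
          have : r v + 1 ≤ (univ.filter (fun i => I i v ∧ x i = 1)).card := by exact_mod_cast h
          omega
        · exact h
    · -- the active vertices
      set W := univ.filter (fun v => ¬ r v ≤ (univ.filter (fun i => I i v ∧ x i = 1)).card) with hW
      have memW : ∀ v, v ∈ W ↔ ¬ r v ≤ (univ.filter (fun i => I i v ∧ x i = 1)).card := by
        intro v; simp [hW]
      -- fractional degree
      have hdeg : ∀ v ∈ W, 3 ≤ (Fr.filter (fun i => I i v)).card := by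
        intro v hvW
        rw [memW] at hvW
        have h1 := (hv v).resolve_right hvW
        by_contra hlt
        push Not at hlt
        have hsplit : ∑ i ∈ univ.filter (fun i => I i v), x i
            = ∑ i ∈ univ.filter (fun i => I i v ∧ x i = 1), x i
              + ∑ i ∈ Fr.filter (fun i => I i v), x i := by
          rw [← Finset.sum_filter_add_sum_filter_not (univ.filter (fun i => I i v))
            (fun i => x i = 1)]
          congr 1
          · rw [filter_filter]
          · rw [filter_filter]
            symm
            apply Finset.sum_subset
            · intro i hi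
              rw [mem_filter, memFr] at hi
              rw [mem_filter]
              exact ⟨mem_univ _, hi.2, hi.1.2⟩
            · intro i hi hi'
              rw [mem_filter] at hi
              rw [mem_filter, memFr] at hi'
              by_contra h0
              exact hi' ⟨⟨h0, hi.2.2⟩, hi.2.1⟩
        have hones : ∑ i ∈ univ.filter (fun i => I i v ∧ x i = 1), x i
            = ((univ.filter (fun i => I i v ∧ x i = 1)).card : ℝ) := by
          rw [Finset.sum_congr rfl (g := fun _ => (1 : ℝ))
            (fun i hi => ((mem_filter.mp hi).2.2))]
          simp
        have hfr : ∑ i ∈ Fr.filter (fun i => I i v), x i ≤ 2 ∧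
            (∑ i ∈ Fr.filter (fun i => I i v), x i < 2) := by
          have hlt1 : ∀ i ∈ Fr.filter (fun i => I i v), x i < 1 := by
            intro i hi
            rw [mem_filter, memFr] at hi
            exact lt_of_le_of_ne (hx i).2 hi.1.2
          rcases (Fr.filter (fun i => I i v)).eq_empty_or_nonempty with he | he
          · rw [he]; simp
          · have := Finset.sum_lt_sum_of_nonempty he hlt1
            simp only [sum_const, nsmul_eq_mul, mul_one] at this
            have h2 : ((Fr.filter (fun i => I i v)).card : ℝ) ≤ 2 := by
              exact_mod_cast (by omega : (Fr.filter (fun i => I i v)).card ≤ 2)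
            constructor <;> linarith
        rw [hsplit, hones] at h1
        push Not at hvW
        have h3 : ((univ.filter (fun i => I i v ∧ x i = 1)).card : ℝ) + 1 ≤ r v := by
          exact_mod_cast hvW
        linarith [hfr.2]
      -- fewer active vertices than fractional edges
      have hcount : W.card < Fr.card := by
        have h1 : 3 * W.card ≤ ∑ v ∈ W, (Fr.filter (fun i => I i v)).card := by
          rw [mul_comm, ← smul_eq_mul]
          exact Finset.card_nsmul_le_sum _ _ _ hdeg
        have h2 : ∑ v ∈ W, (Fr.filter (fun i => I i v)).card
            = ∑ i ∈ Fr, (W.filter (fun v => I i v)).card := by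
          simp only [card_filter]
          exact Finset.sum_comm
        have h3 : ∑ i ∈ Fr, (W.filter (fun v => I i v)).card ≤ ∑ i ∈ Fr, 2 := by
          apply Finset.sum_le_sum
          intro i _
          refine (card_le_card ?_).trans (hI i)
          intro v hv
          rw [mem_filter] at hv ⊢
          exact ⟨mem_univ _, hv.2⟩
        rw [sum_const, smul_eq_mul] at h3
        have := hne.card_pos
        omega
      -- a kernel vector
      let Φ : (Fr → ℝ) →ₗ[ℝ] (W → ℝ) :=
        LinearMap.pi (fun v => ∑ i : Fr, (if I i v then (1 : ℝ) else 0) • LinearMap.proj i)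
      have hker : LinearMap.ker Φ ≠ ⊥ := by
        apply LinearMap.ker_ne_bot_of_finrank_lt
        simp only [Module.finrank_fintype_fun_eq_card, Fintype.card_coe]
        exact hcount
      obtain ⟨y0, hy0, hy0ne⟩ := Submodule.exists_mem_ne_zero_of_ne_bot hker
      have hy0' : ∀ v : W, ∑ i : Fr, (if I i v then y0 i else 0) = 0 := by
        intro v
        have := congrFun (LinearMap.mem_ker.mp hy0) v
        simp only [Φ, LinearMap.pi_apply, Pi.zero_apply] at this
        rw [LinearMap.sum_apply] at this
        refine Eq.trans (Finset.sum_congr rfl fun i _ => ?_) this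
        rw [LinearMap.smul_apply, LinearMap.proj_apply, smul_eq_mul]
        split_ifs
        · rw [one_mul]
        · rw [zero_mul]
      -- choose the sign
      obtain ⟨y, hyker, hyne, hysum⟩ : ∃ y : Fr → ℝ, (∀ v : W,
          ∑ i : Fr, (if I i v then y i else 0) = 0) ∧ y ≠ 0 ∧ ∑ i, y i ≤ 0 := by
        rcases le_total (∑ i, y0 i) 0 with h | h
        · exact ⟨y0, hy0', hy0ne, h⟩
        · refine ⟨-y0, ?_, neg_ne_zero.mpr hy0ne, ?_⟩
          · intro v
            have := hy0' v
            rw [← neg_eq_zero, ← Finset.sum_neg_distrib] at this
            refine Eq.trans (Finset.sum_congr rfl fun i _ => ?_) this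
            simp only [Pi.neg_apply]
            split_ifs
            · rfl
            · rw [neg_zero]
          · simp only [Pi.neg_apply, Finset.sum_neg_distrib]
            linarith
      -- extend by zero
      set Y : ι → ℝ := fun i => if h : i ∈ Fr then y ⟨i, h⟩ else 0 with hY
      have hYout : ∀ i, i ∉ Fr → Y i = 0 := by
        intro i hi; rw [hY]; simp [hi]
      have hsumY : ∀ P : ι → Prop, ∑ i ∈ univ.filter (fun i => P i), Y i
          = ∑ i : Fr, (if P i then y i else 0) := by
        intro P
        have h1 : ∑ i ∈ univ.filter (fun i => P i), Y i = ∑ i ∈ Fr, (if P i then Y i else 0) := by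
          rw [Finset.sum_filter]
          symm
          apply Finset.sum_subset (subset_univ _)
          intro i _ hi
          rw [hYout i hi]; simp
        rw [h1, ← Finset.sum_coe_sort Fr (fun i => if P i then Y i else 0)]
        apply Finset.sum_congr rfl
        intro i _
        have : Y i = y i := by rw [hY]; simp
        rw [this]
      have hYne : ∃ i ∈ Fr, Y i ≠ 0 := by
        by_contra h
        push Not at h
        apply hyne
        funext i
        have := h i i.2
        rw [hY] at this
        simpa using this
      -- the step length
      set Z := Fr.filter (fun i => Y i ≠ 0) with hZ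
      have hZne : Z.Nonempty := by
        obtain ⟨i, h1, h2⟩ := hYne
        exact ⟨i, mem_filter.mpr ⟨h1, h2⟩⟩
      set len : ι → ℝ := fun i => if 0 < Y i then (1 - x i) / Y i else x i / (- Y i) with hlen
      obtain ⟨j, hjZ, hjmin⟩ := Finset.exists_min_image Z len hZne
      set τ := len j with hτ
      have hxlt : ∀ i ∈ Fr, 0 < x i ∧ x i < 1 := by
        intro i hi
        rw [memFr] at hi
        exact ⟨lt_of_le_of_ne (hx i).1 (Ne.symm hi.1), lt_of_le_of_ne (hx i).2 hi.2⟩
      have hlenpos : ∀ i ∈ Z, 0 < len i := by
        intro i hi
        rw [hZ, mem_filter] at hi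
        have := hxlt i hi.1
        rw [hlen]
        simp only
        split_ifs with h
        · exact div_pos (by linarith) h
        · have : Y i < 0 := lt_of_le_of_ne (not_lt.mp h) hi.2
          exact div_pos (hxlt i hi.1).1 (by linarith)
      have hτpos : 0 < τ := hlenpos j hjZ
      set x' : ι → ℝ := fun i => x i + τ * Y i with hx'
      have hx'01 : ∀ i, 0 ≤ x' i ∧ x' i ≤ 1 := by
        intro i
        rw [hx']
        simp only
        by_cases hi : i ∈ Z
        · have hm := hjmin i hi
          have hi' := hi
          rw [hZ, mem_filter] at hi'
          have hxi := hxlt i hi'.1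
          rw [hlen] at hm
          simp only at hm
          split_ifs at hm with h
          · rw [le_div_iff₀ h] at hm
            constructor
            · nlinarith
            · linarith
          · have hneg : 0 < - Y i := by
              have : Y i < 0 := lt_of_le_of_ne (not_lt.mp h) hi'.2
              linarith
            rw [le_div_iff₀ hneg] at hm
            constructor
            · linarith
            · nlinarith
        · have hYi : Y i = 0 := by
            by_contra h
            apply hi
            rw [hZ, mem_filter]
            refine ⟨?_, h⟩
            by_contra h'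
            exact h (hYout i h')
          rw [hYi, mul_zero, add_zero]
          exact hx i
      have hx'out : ∀ i, i ∉ Fr → x' i = x i := by
        intro i hi
        rw [hx']
        simp only
        rw [hYout i hi, mul_zero, add_zero]
      have hxj : x' j = 0 ∨ x' j = 1 := by
        have hj' := hjZ
        rw [hZ, mem_filter] at hj'
        rw [hx']
        simp only
        rw [hτ, hlen]
        simp only
        split_ifs with h
        · right
          rw [div_mul_cancel₀ _ h.ne']; ring
        · left
          have : Y j ≠ 0 := hj'.2
          field_simp
          ring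
      have hones : ∀ i, x i = 1 → x' i = 1 := by
        intro i hi
        rw [hx'out i, hi]
        rw [memFr]
        intro h
        exact h.2 hi
      have hlt : (univ.filter (fun i => x' i ≠ 0 ∧ x' i ≠ 1)).card < n := by
        rw [← hn]
        apply card_lt_card
        refine ⟨?_, ?_⟩
        · intro i hi
          rw [mem_filter] at hi
          by_contra hi'
          rw [hx'out i hi'] at hi
          exact hi' ((memFr i).mpr hi.2)
        · intro hsub
          have hj' := hjZ
          rw [hZ, mem_filter] at hj'
          have := hsub hj'.1
          rw [mem_filter] at this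
          tauto
      obtain ⟨S, hS1, hS2⟩ := ih _ hlt x' hx'01 rfl (by
        intro v
        by_cases hvW : v ∈ W
        · left
          have hvW' := (memW v).mp hvW
          have h1 := (hv v).resolve_right hvW'
          have h2 : ∑ i ∈ univ.filter (fun i => I i v), x' i
              = ∑ i ∈ univ.filter (fun i => I i v), x i
                + τ * ∑ i ∈ univ.filter (fun i => I i v), Y i := by
            rw [Finset.mul_sum, ← Finset.sum_add_distrib]
          rw [h2, hsumY (fun i => I i v), hyker ⟨v, hvW⟩, mul_zero, add_zero]
          exact h1
        · right
          rw [memW] at hvW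
          push Not at hvW
          refine hvW.trans (card_le_card ?_)
          intro i hi
          rw [mem_filter] at hi ⊢
          exact ⟨mem_univ _, hi.2.1, hones i hi.2.2⟩)
      refine ⟨S, hS1.trans ?_, hS2⟩
      have h2 : ∑ i, x' i = ∑ i, x i + τ * ∑ i, Y i := by
        rw [Finset.mul_sum, ← Finset.sum_add_distrib]
      have h3 : ∑ i, Y i = ∑ i, y i := by
        have := hsumY (fun _ => True)
        simpa using this
      rw [h2, h3]
      nlinarith

end Pool.Agent.EdgePart
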