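import Mathlib
import Pool.Agent.EdgePart.Augment
import Pool.Agent.EdgePart.Density
import Pool.Agent.EdgePart.Round

set_option autoImplicit false

/-!
# Edge partitions into an `s`-connected and a `t`-connected graph
-/

namespace Pool.Agent.EdgePart

open Finset

variable {V : Type*} [Fintype V]

/-- the number of edges at a vertex inside a set of edges -/
lemma degree_count (G : SimpleGraph V) (v : V) :
    (G.neighborSet v).ncard = {e : Sym2 V | e ∈ G.edgeSet ∧ v ∈ e}.ncard := by
  classical
  apply Set.ncard_congr (fun w _ => s(v, w))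
  · intro w hw
    exact ⟨hw, Sym2.mem_mk_left v w⟩
  · intro a b _ _ h
    exact Sym2.congr_right.mp h
  · rintro e ⟨he, hv⟩
    obtain ⟨w, rfl⟩ := hv
    exact ⟨w, he, rfl⟩

/-- a sparse spanning subgraph with minimum degree at least `s - 1` -/
theorem exists_sparse (G : SimpleGraph V) (s K : ℕ) (hs : 1 ≤ s) (hsK : s ≤ K)
    (hdeg : ∀ v, K ≤ (G.neighborSet v).ncard) :
    ∃ M : SimpleGraph V, M ≤ G ∧ (∀ v, s ≤ (M.neighborSet v).ncard + 1) ∧
      K * M.edgeSet.ncard ≤ s * G.edgeSet.ncard := by
  classical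
  have hK : (0 : ℝ) < K := by exact_mod_cast (by omega : 0 < K)
  obtain ⟨I, hIdef⟩ : ∃ I : G.edgeSet → V → Prop, ∀ e v, I e v ↔ v ∈ (e : Sym2 V) :=
    ⟨fun e v => v ∈ (e : Sym2 V), fun _ _ => Iff.rfl⟩
  have hI : ∀ e, (univ.filter (fun v => I e v)).card ≤ 2 := by
    rintro ⟨e, he⟩
    induction e using Sym2.ind with
    | _ a b =>
      have : (univ.filter (fun v => I ⟨s(a, b), he⟩ v)) ⊆ {a, b} := by
        intro v hv
        rw [mem_filter, hIdef] at hv
        have := Sym2.mem_iff.mp hv.2
        simpa using this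
      exact (card_le_card this).trans card_le_two
  have hcount : ∀ v, (univ.filter (fun e : G.edgeSet => I e v)).card
      = (G.neighborSet v).ncard := by
    intro v
    rw [degree_count, ← Set.ncard_coe_finset]
    apply Set.ncard_congr (fun (e : G.edgeSet) _ => (e : Sym2 V))
    · intro e he
      rw [mem_coe, mem_filter, hIdef] at he
      exact ⟨e.2, he.2⟩
    · intro a b _ _ h
      exact Subtype.ext h
    · rintro e ⟨he, hv⟩
      refine ⟨⟨e, he⟩, ?_, rfl⟩
      rw [mem_coe, mem_filter, hIdef]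
      exact ⟨mem_univ _, hv⟩
  obtain ⟨S, hS1, hS2⟩ := rounding I hI (fun _ => s - 1) _ (fun _ => (s : ℝ) / K) (by
      intro e
      refine ⟨by positivity, ?_⟩
      rw [div_le_one hK]
      exact_mod_cast hsK) rfl (by
      intro v
      left
      rw [Finset.sum_const, hcount, nsmul_eq_mul, Nat.cast_sub hs]
      have : (K : ℝ) ≤ (G.neighborSet v).ncard := by exact_mod_cast hdeg v
      rw [mul_div_assoc', le_div_iff₀ hK]
      push_cast
      nlinarith [(by positivity : (0 : ℝ) ≤ s)])
  set E : Set (Sym2 V) := Subtype.val '' (S : Set G.edgeSet) with hE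
  have hEG : E ⊆ G.edgeSet := by
    rintro e ⟨e', _, rfl⟩
    exact e'.2
  have hEdiag : ∀ e ∈ E, ¬ e.IsDiag := fun e he => G.not_isDiag_of_mem_edgeSet (hEG he)
  have hMedge : (SimpleGraph.fromEdgeSet E).edgeSet = E := by
    rw [SimpleGraph.edgeSet_fromEdgeSet]
    ext e
    constructor
    · exact fun h => h.1
    · exact fun h => ⟨h, hEdiag e h⟩
  have hEcard : E.ncard = S.card := by
    rw [hE, Set.ncard_image_of_injective _ Subtype.val_injective, Set.ncard_coe_finset]
  refine ⟨SimpleGraph.fromEdgeSet E, ?_, ?_, ?_⟩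
  · rw [← SimpleGraph.edgeSet_subset_edgeSet, hMedge]
    exact hEG
  · intro v
    rw [degree_count, hMedge]
    have h1 := hS2 v
    have h2 : {e : Sym2 V | e ∈ E ∧ v ∈ e}.ncard = (S.filter (fun i => I i v)).card := by
      symm
      rw [← Set.ncard_coe_finset]
      apply Set.ncard_congr (fun (e : G.edgeSet) _ => (e : Sym2 V))
      · intro e he
        rw [mem_coe, mem_filter, hIdef] at he
        exact ⟨⟨e, he.1, rfl⟩, he.2⟩
      · intro a b _ _ h
        exact Subtype.ext h
      · rintro e ⟨⟨e', he', rfl⟩, hv⟩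
        refine ⟨e', ?_, rfl⟩
        rw [mem_coe, mem_filter, hIdef]
        exact ⟨he', hv⟩
    omega
  · rw [hMedge, hEcard]
    rw [Finset.sum_const, nsmul_eq_mul, mul_div_assoc', le_div_iff₀ hK] at hS1
    have h3 : (univ : Finset G.edgeSet).card = G.edgeSet.ncard := by
      rw [card_univ, ← Nat.card_eq_fintype_card]
      rfl
    rw [h3] at hS1
    have h4 : S.card * K ≤ G.edgeSet.ncard * s := by exact_mod_cast hS1
    linarith

/-- ordered adjacent pairs -/
lemma D_univ [DecidableEq V] (R : SimpleGraph V) : D R univ = 2 * R.edgeSet.ncard := by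
  classical
  have h1 := R.sum_degrees_eq_twice_card_edges
  have h2 : R.edgeSet.ncard = R.edgeFinset.card := by
    rw [← SimpleGraph.coe_edgeFinset, Set.ncard_coe_finset]
  rw [h2, ← h1]
  unfold D
  rw [univ_product_univ, card_filter, Fintype.sum_prod_type]
  apply Finset.sum_congr rfl
  intro v _
  rw [← card_filter, ← SimpleGraph.card_neighborFinset_eq_degree]
  congr 1
  ext w
  simp

/-- the main theorem -/
theorem partition (s t K : ℕ) (hs : 2 ≤ s) (ht : 2 ≤ t) (hK : 4 * s + 13 * t ≤ 4 * K + 5)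
    (G : SimpleGraph V)
    (hG : s < Fintype.card V ∧
      ∀ S : Finset V, S.card < s → (G.induce ((S : Set V)ᶜ)).Connected)
    (hdeg : ∀ v, K ≤ (G.neighborSet v).ncard) :
    ∃ A : Set (Sym2 V), A ⊆ G.edgeSet ∧
      (s < (SimpleGraph.fromEdgeSet A).support.ncard ∧
        ∀ S : Finset V, S.card < s →
          ((SimpleGraph.fromEdgeSet A).induce
            ((SimpleGraph.fromEdgeSet A).support \ (S : Set V))).Connected) ∧
      (t < (SimpleGraph.fromEdgeSet (G.edgeSet \ A)).support.ncard ∧
        ∀ S : Finset V, S.card < t →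
          ((SimpleGraph.fromEdgeSet (G.edgeSet \ A)).induce
            ((SimpleGraph.fromEdgeSet (G.edgeSet \ A)).support \ (S : Set V))).Connected) := by
  classical
  have hGon : KOn s G univ := by
    refine ⟨by rw [card_univ]; exact hG.1, fun X hX => ?_⟩
    have := hG.2 X hX
    rw [coe_univ, ← Set.compl_eq_univ_sdiff]
    exact this
  have hcardpos : 0 < Fintype.card V := by omega
  obtain ⟨v0⟩ : Nonempty V := Fintype.card_pos_iff.mp hcardpos
  -- the number of vertices
  have hnK : K + 1 ≤ Fintype.card V := by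
    have h1 := hdeg v0
    have h2 : insert v0 (G.neighborSet v0) ⊆ Set.univ := Set.subset_univ _
    have h3 := Set.ncard_le_ncard h2 (Set.toFinite _)
    rw [Set.ncard_insert_of_notMem (by simp), Set.ncard_univ, Nat.card_eq_fintype_card] at h3
    omega
  -- the sparse graph and its augmentation
  obtain ⟨M, hMG, hMdeg, hMcard⟩ := exists_sparse G s K (by omega) (by omega) hdeg
  obtain ⟨A, hMA, hAG, hA, hAcard⟩ := augment hMG hGon hMdeg
  have hAcard' : A.edgeSet.ncard ≤ M.edgeSet.ncard + Fintype.card V := by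
    have h1 : A.edgeSet ⊆ M.edgeSet ∪ (A.edgeSet \ M.edgeSet) := by
      intro e he
      by_cases h : e ∈ M.edgeSet
      · exact Or.inl h
      · exact Or.inr ⟨he, h⟩
    have h2 := Set.ncard_le_ncard h1 (Set.toFinite _)
    have h3 := Set.ncard_union_le M.edgeSet (A.edgeSet \ M.edgeSet)
    omega
  -- the rest
  set R : SimpleGraph V := G \ A with hR
  have hRedge : R.edgeSet = G.edgeSet \ A.edgeSet := SimpleGraph.edgeSet_sdiff G A
  have hRcard : G.edgeSet.ncard ≤ R.edgeSet.ncard + A.edgeSet.ncard := by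
    rw [hRedge]
    have h1 : G.edgeSet ⊆ (G.edgeSet \ A.edgeSet) ∪ A.edgeSet := by
      intro e he
      by_cases h : e ∈ A.edgeSet
      · exact Or.inr h
      · exact Or.inl ⟨he, h⟩
    exact (Set.ncard_le_ncard h1 (Set.toFinite _)).trans (Set.ncard_union_le _ _)
  have hGcard : K * Fintype.card V ≤ 2 * G.edgeSet.ncard := by
    have h1 := G.sum_degrees_eq_twice_card_edges
    have h2 : G.edgeSet.ncard = G.edgeFinset.card := by
      rw [← SimpleGraph.coe_edgeFinset, Set.ncard_coe_finset]
    rw [h2, ← h1, mul_comm, ← card_univ, ← smul_eq_mul]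
    apply Finset.card_nsmul_le_sum
    intro v _
    have := hdeg v
    rw [← SimpleGraph.card_neighborFinset_eq_degree, ← Set.ncard_coe_finset,
      SimpleGraph.coe_neighborFinset]
    exact this
  -- density
  obtain ⟨k, rfl⟩ : ∃ k, t = k + 1 := ⟨t - 1, by omega⟩
  have hk : 1 ≤ k := by omega
  set n := Fintype.card V with hn
  have hdens : 13 * (k * (n - k)) < 4 * D R univ := by
    rw [D_univ]
    have hle : k * (n - k) < k * n := by
      apply Nat.mul_lt_mul_of_pos_left _ hk
      omega
    -- `2 e(R) ≥ (K - s - 2) n`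
    have hKs : 13 * k + 4 * s + 8 ≤ 4 * K := by omega
    have h5 : (K - s) * n ≤ 2 * R.edgeSet.ncard + 2 * n := by
      have hKpos : 0 < K := by omega
      have h6 : K * ((K - s) * n) ≤ K * (2 * R.edgeSet.ncard + 2 * n) := by
        obtain ⟨d, rfl⟩ : ∃ d, K = s + d := ⟨K - s, by omega⟩
        rw [Nat.add_sub_cancel_left]
        -- `K e(G) ≤ K e(R) + K e(A) ≤ K e(R) + K n + s e(G)`
        have h7 : d * G.edgeSet.ncard ≤ (s + d) * R.edgeSet.ncard + (s + d) * n := by
          nlinarith
        nlinarith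
      exact Nat.le_of_mul_le_mul_left h6 hKpos
    obtain ⟨d, rfl⟩ : ∃ d, K = s + d := ⟨K - s, by omega⟩
    rw [Nat.add_sub_cancel_left] at h5
    have h8 : (13 * k + 8) * n ≤ 4 * d * n := Nat.mul_le_mul_right n (by omega)
    nlinarith
  obtain ⟨U, hU⟩ := exists_KOn hk R (by omega) hdens
  -- the two edge sets
  set B : Set (Sym2 V) := {e | e ∈ R.edgeSet ∧ ∀ v ∈ e, v ∈ U} with hB
  have hBG : B ⊆ G.edgeSet := by
    intro e he
    have := he.1
    rw [hRedge] at this
    exact this.1
  have hsdiff : G.edgeSet \ (G.edgeSet \ B) = B := by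
    rw [Set.sdiff_sdiff_cancel_left hBG]
  have hAle : A ≤ SimpleGraph.fromEdgeSet (G.edgeSet \ B) := by
    intro a b hab
    rw [SimpleGraph.fromEdgeSet_adj]
    refine ⟨⟨hAG hab, ?_⟩, hab.ne⟩
    intro h
    have := h.1
    rw [hRedge] at this
    exact this.2 hab
  have hsupA : (SimpleGraph.fromEdgeSet (G.edgeSet \ B)).support = Set.univ := by
    rw [Set.eq_univ_iff_forall]
    intro v
    rw [SimpleGraph.mem_support]
    have h1 := hMdeg v
    have h2 : 0 < (M.neighborSet v).ncard := by omega
    obtain ⟨w, hw⟩ := (Set.ncard_pos (Set.toFinite _)).mp h2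
    exact ⟨w, hAle (hMA hw)⟩
  have hBadj : ∀ a b, (SimpleGraph.fromEdgeSet B).Adj a b ↔ R.Adj a b ∧ a ∈ U ∧ b ∈ U := by
    intro a b
    rw [SimpleGraph.fromEdgeSet_adj, hB, Set.mem_setOf_eq]
    constructor
    · rintro ⟨⟨h1, h2⟩, h3⟩
      exact ⟨h1, h2 a (Sym2.mem_mk_left a b), h2 b (Sym2.mem_mk_right a b)⟩
    · rintro ⟨h1, h2, h3⟩
      refine ⟨⟨h1, ?_⟩, h1.ne⟩
      intro v hv
      rcases Sym2.mem_iff.mp hv with rfl | rfl
      · exact h2
      · exact h3
  have hsupB : (SimpleGraph.fromEdgeSet B).support = (U : Set V) := by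
    ext u
    rw [SimpleGraph.mem_support]
    constructor
    · rintro ⟨w, hw⟩
      exact ((hBadj u w).mp hw).2.1
    · intro hu
      by_contra hno
      push Not at hno
      obtain ⟨w, hw, hwu⟩ : ∃ w ∈ U, w ≠ u := by
        by_contra hall
        push Not at hall
        have : U ⊆ {u} := by
          intro w hw
          rw [mem_singleton]
          exact hall w hw
        have := card_le_card this
        rw [card_singleton] at this
        have := hU.1
        omega
      have := hU.spread ∅ {u} (by simp) (w := u) (v := w) (mem_singleton_self u) hu (by simp) hw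
        (by simp) (by
          intro a ha b hb _ hab
          rw [mem_singleton] at ha
          subst ha
          exact absurd ((hBadj a b).mpr ⟨hab, hu, hb⟩) (hno b))
      exact hwu (mem_singleton.mp this)
  refine ⟨G.edgeSet \ B, Set.sdiff_subset, ⟨?_, ?_⟩, ?_⟩
  · -- the graph of `G.edgeSet \ B`
    rw [hsupA, Set.ncard_univ, Nat.card_eq_fintype_card]
    exact hG.1
  · intro S hS
    rw [hsupA]
    have h1 := hA.2 S hS
    rw [coe_univ] at h1
    refine h1.mono ?_
    intro a b hab
    exact hAle hab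
  · rw [hsdiff]
    refine ⟨?_, ?_⟩
    · rw [hsupB, Set.ncard_coe_finset]
      exact hU.1
    · intro S hS
      rw [hsupB]
      refine (hU.2 S hS).mono ?_
      intro a b hab
      exact (hBadj _ _).mpr ⟨hab, a.2.1, b.2.1⟩

end Pool.Agent.EdgePart
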